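import Mathlib

set_option autoImplicit false

namespace Pool.Agent.Results.MP_547692_lc.No

open Set Function Cardinal MeasureTheory

/-- naively Haar null subset of the plane: `μ` of a set is its outer measure -/
def NHN (X : Set (ℝ × ℝ)) : Prop :=
  ∃ μ : Measure (ℝ × ℝ), IsProbabilityMeasure μ ∧ ∀ g h, μ ((fun x => g + x + h) '' X) = 0

/-- non(N): least size of a subset of the line of positive outer Lebesgue measure -/
noncomputable def nonN : Cardinal.{0} := sInf {c | ∃ S : Set ℝ, volume S ≠ 0 ∧ #S = c}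

theorem small (X : Set (ℝ × ℝ)) (h : #X < 𝔠) : NHN X := by
  obtain ⟨a, ha⟩ : ∃ a, a ∉ range fun p : X × X => (p.1.1.2 - p.2.1.2) / (p.1.1.1 - p.2.1.1) :=
    (ne_univ_iff_exists_notMem _).1 fun e => (mk_range_le.trans_lt (show #(X × X) < 𝔠 by
      simpa using mul_lt_of_lt aleph0_le_continuum h h)).ne (by rw [e, mk_univ, mk_real])
  have he : MeasurableEmbedding fun t : ℝ => (t, a * t) :=
    Continuous.measurableEmbedding (by fun_prop) fun _ _ h => congrArg Prod.fst h
  refine ⟨(volume.restrict (Icc 0 1)).map fun t : ℝ => (t, a * t), ⟨by simp [he.map_apply]⟩,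
    fun g h => ?_⟩
  rw [he.map_apply]
  refine Set.Subsingleton.measure_zero ?_ _
  rintro s ⟨x, x1, x2⟩ t ⟨y, y1, y2⟩
  refine by_contra fun e => ha ⟨(⟨x, x1⟩, ⟨y, y1⟩), ?_⟩
  simp only [Prod.ext_iff, Prod.fst_add, Prod.snd_add] at x2 y2
  have : x.1 - y.1 = s - t := by linarith
  beta_reduce
  rw [div_eq_iff (this ▸ sub_ne_zero.2 e), this]
  linarith

theorem result : (∀ X : Set (ℝ × ℝ), #X < 𝔠 → NHN X) ∧
    (nonN < 𝔠 → ∀ S : Set ℝ, #S = nonN → NHN (S ×ˢ S)) :=
  ⟨small, fun h S hS => small _ (by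
    rw [mk_setProd, hS]
    exact mul_lt_of_lt aleph0_le_continuum h h)⟩

end Pool.Agent.Results.MP_547692_lc.No
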